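import Pool.Agent.Lib.lead.CXGraphRed

namespace Pool.Agent.Results.MP_e5cbc1_lc.NPC

open Pool.Agent.Lib.CX

/-- number of neighbours of `v` placed before `v` by the positions `π` -/
noncomputable def dm (a : Gr) (π : Fin a.n → ℕ) (v : Fin a.n) : ℕ := {u | a.G.Adj v u ∧ π u < π v}.ncard
/-- number of neighbours of `v` placed after `v` -/
noncomputable def dp (a : Gr) (π : Fin a.n → ℕ) (v : Fin a.n) : ℕ := {u | a.G.Adj v u ∧ π v < π u}.ncard

def TypeA (a : Gr) : Prop := ∃ π, π.Injective ∧ ∀ v, Odd (dm a π v) ∨ dm a π v = 0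

def TypeB (a : Gr) : Prop :=
  ∃ π, π.Injective ∧ ∀ v, (Odd (dm a π v) ∨ dm a π v = 0) ∨ Even (dm a π v) ∧ dp a π v = 0

theorem ncard_range (n : ℕ) (P : ℕ → Bool) : {u : Fin n | P u.1}.ncard = (List.range n).countP P := by
  rw [← Set.ncard_image_of_injective _ Fin.val_injective, List.countP_eq_length_filter,
    ← List.toFinset_card_of_nodup (List.nodup_range.filter _), ← Set.ncard_coe_finset]
  congr 1
  ext x
  simp only [Set.mem_image, Set.mem_ofPred_eq, List.coe_toFinset, List.mem_filter, List.mem_range]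
  exact ⟨by rintro ⟨u, h, rfl⟩; exact ⟨u.2, h⟩, fun ⟨h1, h2⟩ => ⟨⟨x, h1⟩, h2, rfl⟩⟩

def cm (a : Gr) (c : List ℕ) (v : ℕ) : ℕ := (List.range a.n).countP fun u => a.adjB v u && decide (c.getD u 0 < c.getD v 0)
def cp (a : Gr) (c : List ℕ) (v : ℕ) : ℕ := (List.range a.n).countP fun u => a.adjB v u && decide (c.getD v 0 < c.getD u 0)

theorem np (P : ℕ → ℕ → Prop) [i : ∀ x y, Decidable (P x y)] (hP : PT fun p : ℕ × ℕ => decide (P p.1 p.2)) :
    InNP fun a : Gr => ∃ π, π.Injective ∧ ∀ v, P (dm a π v) (dp a π v) := by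
  have e1 : ∀ (a : Gr) c v, dm a (fun u => c.getD u 0) v = cm a c v := fun a c v => by
    rw [cm, ← ncard_range, dm]; simp [Gr.adjB_iff]
  have e2 : ∀ (a : Gr) c v, dp a (fun u => c.getD u 0) v = cp a c v := fun a c v => by
    rw [cp, ← ncard_range, dp]; simp [Gr.adjB_iff]
  have h : PT fun p : (Gr × List ℕ) × ℕ => decide (P (cm p.1.1 p.1.2 p.2) (cp p.1.1 p.1.2 p.2)) :=
    hP.comp (g := fun p : (Gr × List ℕ) × ℕ => (cm p.1.1 p.1.2 p.2, cp p.1.1 p.1.2 p.2)) (by unfold cm cp; fun_prop)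
  refine InNP.of_cert' (fun (a : Gr) (c : List ℕ) => (∀ u < a.n, ∀ v < a.n, c.getD u 0 = c.getD v 0 → u = v) ∧
    ∀ v < a.n, P (cm a c v) (cp a c v)) (i := fun _ _ => inferInstance) (fun a => a.n * (3 * a.n + 3) + 2)
    (PT.decide_and (i := fun _ => inferInstance) (j := fun _ => inferInstance) (by fun_prop)
      (PT.decide_forall_lt (i := fun _ _ => inferInstance) h (by fun_prop) (by fun_prop))) (by fun_prop) ?_ ?_
  · rintro a c ⟨h1, h2⟩
    exact ⟨fun u => c.getD u 0, fun u v h => Fin.ext (h1 _ u.2 _ v.2 h), fun v => by rw [e1, e2]; exact h2 _ v.2⟩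
  · rintro a ⟨π, h1, h2⟩
    let r : Fin a.n → ℕ := fun v => (Finset.univ.filter fun u => π u < π v).card
    have m : ∀ u v, π u < π v → r u < r v := fun u v h => Finset.card_lt_card
      ⟨fun w hw => by simp at hw ⊢; omega, fun hs => by simpa using hs (x := u) (by simpa using h)⟩
    have m' : ∀ u v, r u < r v ↔ π u < π v := fun u v => ⟨fun h => by
      rcases lt_trichotomy (π u) (π v) with l | l | l
      · exact l
      · rw [h1 l] at h; exact h.false.elim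
      · exact (h.asymm (m _ _ l)).elim, m u v⟩
    have g : (fun u : Fin a.n => (List.ofFn r).getD u 0) = r := funext fun u => by simp
    refine ⟨List.ofFn r, ?_, fun u hu v hv h => ?_, fun v hv => ?_⟩
    · have := size_list_le (l := List.ofFn r) (B := 3 * a.n + 2) fun x hx => by
        obtain ⟨u, rfl⟩ := List.mem_ofFn.1 hx
        have := size_nat_le (r u)
        have : r u ≤ a.n := (Finset.card_le_univ _).trans (by simp)
        omega
      simpa using this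
    · have : r ⟨u, hu⟩ = r ⟨v, hv⟩ := (congrFun g ⟨u, hu⟩).symm.trans (h.trans (congrFun g ⟨v, hv⟩))
      have a1 := (m' ⟨u, hu⟩ ⟨v, hv⟩).not.1 this.not_lt
      have a2 := (m' ⟨v, hv⟩ ⟨u, hu⟩).not.1 this.not_gt
      exact congrArg Fin.val (h1 (le_antisymm (not_lt.1 a2) (not_lt.1 a1)))
    · rw [← e1 a _ ⟨v, hv⟩, ← e2 a _ ⟨v, hv⟩, g]
      simpa only [dm, dp, m'] using h2 ⟨v, hv⟩

abbrev V := ℕ × Cl3 ℕ × ℕ
abbrev S (z : ℕ × Bool) : V := (0, (z, z, z), 0)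

def vs (φ : List (Cl3 ℕ)) : List V := (φ ×ˢ List.range 4).flatMap fun o =>
  [(2, o), (3, o), (4, o), (5, o)] ++ if o.2 < 3 then [(1, o), S (litOf o), S ((litOf o).1, !(litOf o).2)] else []
def es (φ : List (Cl3 ℕ)) : List (V × V) := (φ ×ˢ List.range 4).flatMap fun o =>
  [((2, o), (3, o)), ((2, o), (4, o)), ((2, o), (5, o)), ((3, o), (4, o)), ((3, o), (5, o)), ((4, o), (5, o))] ++
    if o.2 < 3 then [((1, o), (2, o.1, 3)), ((1, o), S (litOf o)), ((1, o), (2, o)), ((2, o), S (litOf o)),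
      (S (litOf o), S ((litOf o).1, !(litOf o).2))] else []

theorem mem_vs {φ x} : x ∈ vs φ ↔ ∃ C ∈ φ, ∃ k < 4, x = (2, C, k) ∨ x = (3, C, k) ∨ x = (4, C, k) ∨ x = (5, C, k) ∨
    k < 3 ∧ (x = (1, C, k) ∨ x = S (litOf (C, k)) ∨ x = S ((litOf (C, k)).1, !(litOf (C, k)).2)) := by
  simp only [vs, List.mem_flatMap, Prod.exists, List.mem_product, List.mem_range, List.mem_append, List.mem_cons,
    List.not_mem_nil, or_false, List.mem_ite_nil_right, or_assoc, and_assoc, exists_and_left]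

def E (φ : List (Cl3 ℕ)) (x y : V) : Prop := ∃ C ∈ φ, ∃ k < 4, x = (2, C, k) ∧ y = (3, C, k) ∨
  x = (2, C, k) ∧ y = (4, C, k) ∨ x = (2, C, k) ∧ y = (5, C, k) ∨ x = (3, C, k) ∧ y = (4, C, k) ∨
  x = (3, C, k) ∧ y = (5, C, k) ∨ x = (4, C, k) ∧ y = (5, C, k) ∨ k < 3 ∧ (x = (1, C, k) ∧ y = (2, C, 3) ∨
  x = (1, C, k) ∧ y = S (litOf (C, k)) ∨ x = (1, C, k) ∧ y = (2, C, k) ∨ x = (2, C, k) ∧ y = S (litOf (C, k)) ∨
  x = S (litOf (C, k)) ∧ y = S ((litOf (C, k)).1, !(litOf (C, k)).2))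

theorem mem_es {φ x y} : (x, y) ∈ es φ ↔ E φ x y := by
  simp only [E, es, List.mem_flatMap, Prod.exists, List.mem_product, List.mem_range, List.mem_append, List.mem_cons,
    List.not_mem_nil, or_false, List.mem_ite_nil_right, or_assoc, and_assoc, exists_and_left, Prod.mk.injEq x]

def A (φ : List (Cl3 ℕ)) (x y : V) : Prop := E φ x y ∨ E φ y x

theorem E_mem {φ x y} (h : E φ x y) : x ∈ vs φ ∧ y ∈ vs φ ∧ x ≠ y := by
  obtain ⟨C, hC, k, hk, h⟩ := h
  have h1 := fun x => (mem_vs (φ := φ) (x := x)).2 ∘ fun h => ⟨C, hC, k, hk, h⟩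
  have h2 : (2, C, 3) ∈ vs φ := mem_vs.2 ⟨C, hC, 3, by simp⟩
  rcases h with h | h | h | h | h | h | ⟨l, h | h | h | h | h⟩ <;> obtain ⟨rfl, rfl⟩ := h <;>
    refine ⟨h1 _ (by simp [*]), by first | exact h2 | exact h1 _ (by simp [*]), by simp [Prod.ext_iff]⟩

abbrev G (φ : List (Cl3 ℕ)) := mkGr (vs φ) (es φ)
abbrev e (φ : List (Cl3 ℕ)) := mkGrEquiv (vs φ) (es φ)

theorem adj_iff {φ u v} : (G φ).G.Adj u v ↔ A φ (e φ u).1 (e φ v).1 := by
  rw [← (mkGrIso _ _).map_rel_iff]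
  simp only [SimpleGraph.comap_adj, Function.Embedding.subtype_apply, SimpleGraph.fromRel_adj, mem_es]
  exact ⟨fun h => h.2, fun h => ⟨h.elim (fun h => (E_mem h).2.2) fun h => (E_mem h).2.2.symm, h⟩⟩

theorem tr {φ} (v) (P : Fin (G φ).n → Prop) (Q : V → Prop) (h : ∀ u, (G φ).G.Adj v u → (P u ↔ Q (e φ u).1)) :
    {u | (G φ).G.Adj v u ∧ P u}.ncard = {y | A φ (e φ v).1 y ∧ Q y}.ncard := by
  rw [← Set.ncard_image_of_injective _ (Subtype.val_injective.comp (e φ).injective)]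
  congr 1
  ext y
  refine ⟨by rintro ⟨u, ⟨h1, h2⟩, rfl⟩; exact ⟨adj_iff.1 h1, (h u h1).1 h2⟩, fun ⟨h1, h2⟩ => ?_⟩
  have hy : y ∈ vs φ := h1.elim (fun h => (E_mem h).2.1) fun h => (E_mem h).1
  have a : (G φ).G.Adj v ((e φ).symm ⟨y, hy⟩) := adj_iff.2 (by simpa using h1)
  exact ⟨_, ⟨a, (h _ a).2 (by simpa using h2)⟩, by simp⟩

theorem cnt {R : V → Prop} (L : List V) (hL : L.Nodup) (h : ∀ y, R y ↔ y ∈ L) (Q : V → Prop) [DecidablePred Q] :
    {y | R y ∧ Q y}.ncard = L.countP Q := by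
  rw [List.countP_eq_length_filter, ← List.toFinset_card_of_nodup (hL.filter _), ← Set.ncard_coe_finset]
  congr 1
  ext y
  simp [h]

variable {φ : List (Cl3 ℕ)} {C : Cl3 ℕ} {k : ℕ}

theorem n1 (hC : C ∈ φ) (hk : k < 3) (y) : A φ (1, C, k) y ↔ y ∈ [(2, C, 3), S (litOf (C, k)), (2, C, k)] := by
  simp only [A, E, List.mem_cons]
  constructor
  · grind (splits := 30)
  · rintro (rfl | rfl | rfl | h)
    iterate 3 exact .inl ⟨C, hC, k, by omega, by simp [hk]⟩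
    exact nomatch h
theorem n2 (hC : C ∈ φ) (hk : k < 3) (y) :
    A φ (2, C, k) y ↔ y ∈ [(3, C, k), (4, C, k), (5, C, k), (1, C, k), S (litOf (C, k))] := by
  simp only [A, E, List.mem_cons]; grind (splits := 40)
theorem nc (hC : C ∈ φ) (y) :
    A φ (2, C, 3) y ↔ y ∈ [(3, C, 3), (4, C, 3), (5, C, 3), (1, C, 0), (1, C, 1), (1, C, 2)] := by
  simp only [A, E, List.mem_cons]
  constructor
  · grind (splits := 40)
  · rintro (rfl | rfl | rfl | rfl | rfl | rfl | h)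
    iterate 3 exact .inl ⟨C, hC, 3, by simp⟩
    exacts [.inr ⟨C, hC, 0, by simp⟩, .inr ⟨C, hC, 1, by simp⟩, .inr ⟨C, hC, 2, by simp⟩, nomatch h]
theorem n3 (hC : C ∈ φ) (hk : k < 4) (y) : A φ (3, C, k) y ↔ y ∈ [(2, C, k), (4, C, k), (5, C, k)] := by
  simp only [A, E, List.mem_cons]; grind (splits := 40)
theorem n4 (hC : C ∈ φ) (hk : k < 4) (y) : A φ (4, C, k) y ↔ y ∈ [(2, C, k), (3, C, k), (5, C, k)] := by
  simp only [A, E, List.mem_cons]; grind (splits := 40)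
theorem n5 (hC : C ∈ φ) (hk : k < 4) (y) : A φ (5, C, k) y ↔ y ∈ [(2, C, k), (3, C, k), (4, C, k)] := by
  simp only [A, E, List.mem_cons]; grind (splits := 40)

theorem ns {z} (hz : S z ∈ vs φ) (y) : A φ (S z) y ↔ y = S (z.1, !z.2) ∨
    ∃ C ∈ φ, ∃ k < 3, litOf (C, k) = z ∧ (y = (1, C, k) ∨ y = (2, C, k)) := by
  constructor
  · rintro (⟨C, hC, k, hk, h | h | h | h | h | h | ⟨l, h | h | h | h | h⟩⟩ |
      ⟨C, hC, k, hk, h | h | h | h | h | h | ⟨l, h | h | h | h | h⟩⟩) <;> obtain ⟨h, h'⟩ := h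
    iterate 10 cases h
    · obtain rfl : z = litOf (C, k) := by simpa using h
      exact .inl h'
    iterate 7 cases h'
    · exact .inr ⟨C, hC, k, l, by simpa [eq_comm] using h', .inl h⟩
    · cases h'
    · exact .inr ⟨C, hC, k, l, by simpa [eq_comm] using h', .inr h⟩
    · obtain rfl : z = ((litOf (C, k)).1, !(litOf (C, k)).2) := by simpa using h'
      exact .inl (by simpa using h)
  · rintro (rfl | ⟨C, hC, k, hk, rfl, rfl | rfl⟩)
    · obtain ⟨C, hC, k, hk, h⟩ := mem_vs.1 hz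
      simp only [Prod.mk.injEq] at h
      obtain ⟨l, h | h⟩ : k < 3 ∧ (z = litOf (C, k) ∨ z = ((litOf (C, k)).1, !(litOf (C, k)).2)) := by grind
      · exact .inl ⟨C, hC, k, hk, by simp [h, l]⟩
      · exact .inr ⟨C, hC, k, hk, by simp [h, l]⟩
    · exact .inr ⟨C, hC, k, by omega, by simp [hk]⟩
    · exact .inr ⟨C, hC, k, by omega, by simp [hk]⟩

theorem fin (x) (Q : V → Prop) : {y | A φ x y ∧ Q y}.Finite :=
  (List.finite_toSet (vs φ)).subset fun _ h => h.1.elim (fun h => (E_mem h).2.1) fun h => (E_mem h).1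

theorem sc {z} (hz : S z ∈ vs φ) (Q : V → Prop) [DecidablePred Q]
    (h : ∀ C ∈ φ, ∀ k < 3, litOf (C, k) = z → (Q (2, C, k) ↔ Q (1, C, k))) :
    ∃ j, {y | A φ (S z) y ∧ Q y}.ncard = (if Q (S (z.1, !z.2)) then 1 else 0) + 2 * j := by
  let O : Set (Cl3 ℕ × ℕ) := {o | o.1 ∈ φ ∧ o.2 < 3 ∧ litOf o = z ∧ Q (1, o)}
  have f : O.Finite := ((List.finite_toSet φ).prod (Set.finite_Iio 3)).subset fun o h => ⟨h.1, h.2.1⟩
  have e1 : {y | A φ (S z) y ∧ Q y} = {y | y = S (z.1, !z.2) ∧ Q y} ∪ (Prod.mk 1 '' O ∪ Prod.mk 2 '' O) := by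
    ext y
    simp only [ns hz, Set.mem_ofPred_eq, Set.mem_union, Set.mem_image, O, Prod.exists]
    grind
  have e2 : {y | y = S (z.1, !z.2) ∧ Q y}.ncard = if Q (S (z.1, !z.2)) then 1 else 0 :=
    (cnt [S (z.1, !z.2)] (by simp) (by simp) Q).trans (by simp [List.countP_cons])
  refine ⟨O.ncard, ?_⟩
  rw [e1, Set.ncard_union_eq (by simp [Set.disjoint_left]) ((Set.finite_singleton _).subset fun _ h => h.1)
    ((f.image _).union (f.image _)), Set.ncard_union_eq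
    (Set.disjoint_left.2 (by rintro _ ⟨_, -, rfl⟩ ⟨_, -, h⟩; cases h)) (f.image _) (f.image _),
    Set.ncard_image_of_injective _ (Prod.mk_right_injective _),
    Set.ncard_image_of_injective _ (Prod.mk_right_injective _), e2, two_mul]

theorem fwd (h : Sat3 φ) : TypeA (G φ) := by
  obtain ⟨v, hv⟩ := h
  simp only [ok_iff] at hv
  choose! κ h1 h2 using hv
  let ρ : V → ℕ := fun x => if x.1 = 0 then (if v x.2.1.1.1 = x.2.1.1.2 then 5 else 2) else if x.1 = 1 then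
    (if x.2.2 = κ x.2.1 then 2 else 8) else if x.1 = 2 then (if x.2.2 = 3 then 6 else if x.2.2 = κ x.2.1 then 3 else 7)
    else if x.1 = 3 then 0 else if x.1 = 4 then 1 else 10
  have ne : ∀ x y, E φ x y → ρ x ≠ ρ y := by
    rintro _ _ ⟨C, hC, k, hk, h | h | h | h | h | h | ⟨l, h | h | h | h | h⟩⟩ <;> obtain ⟨rfl, rfl⟩ := h <;>
      have := h2 C hC <;> simp only [ρ, Bool.eq_not] <;> grind
  have lt : ∀ {n a b : ℕ} (u v : Fin n), a < b → a * n + u < b * n + v := fun u v h => by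
    have := u.2; nlinarith
  refine ⟨fun u => ρ (e φ u).1 * (G φ).n + u, fun u w h => Fin.ext ?_, fun u => ?_⟩
  · rcases lt_trichotomy (ρ (e φ u).1) (ρ (e φ w).1) with l | l | l
    · exact ((lt u w l).ne h).elim
    · simpa [l] using h
    · exact ((lt w u l).ne' h).elim
  rw [dm, tr u _ (fun y => ρ y < ρ (e φ u).1) fun w a => ⟨fun h => lt_of_le_of_ne
    (not_lt.1 fun l => (lt u w l).asymm h) ((adj_iff.1 a).elim (fun h => (ne _ _ h).symm) (ne _ _)), lt w u⟩]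
  have hx : (e φ u).1 ∈ vs φ := (e φ u).2
  generalize (e φ u).1 = x at hx
  have hs : ∀ z, S z ∈ vs φ → Odd {y | A φ (S z) y ∧ ρ y < ρ (S z)}.ncard ∨
      {y | A φ (S z) y ∧ ρ y < ρ (S z)}.ncard = 0 := fun z hz => by
    by_cases c : v z.1 = z.2
    · obtain ⟨j, hj⟩ := sc hz (fun y => ρ y < ρ (S z)) fun C hC k hk e => by simp only [ρ]; grind
      rw [hj, if_pos (by simp [ρ, c])]
      exact .inl ⟨j, by ring⟩
    · refine .inr ((Set.ncard_eq_zero (fin _ _)).2 (Set.eq_empty_of_forall_notMem ?_))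
      rintro y ⟨a, b⟩
      rcases (ns hz y).1 a with rfl | ⟨C, hC, k, hk, e, rfl | rfl⟩ <;> simp only [ρ] at b <;> grind
  obtain ⟨C, hC, k, hk, rfl | rfl | rfl | rfl | ⟨l, rfl | rfl | rfl⟩⟩ := mem_vs.1 hx
  · have a1 := h1 C hC
    have a2 := h2 C hC
    by_cases c : k = 3
    · subst c
      rw [cnt _ (by simp) (nc hC)]
      obtain c | c | c : κ C = 0 ∨ κ C = 1 ∨ κ C = 2 := by omega
      all_goals simp [ρ, c]; decide
    · rw [cnt _ (by simp) (n2 hC (by omega))]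
      by_cases d : k = κ C
      · subst d; simp [ρ, c, a2]; decide
      · by_cases d' : v (litOf (C, k)).1 = (litOf (C, k)).2 <;> simp [ρ, c, d, d'] <;> decide
  · rw [cnt _ (by simp) (n3 hC hk)]; simp [ρ]
  · rw [cnt _ (by simp) (n4 hC hk)]; left; simp only [ρ, List.countP_cons]; grind
  · rw [cnt _ (by simp) (n5 hC hk)]; left; simp only [ρ, List.countP_cons]; grind
  · rw [cnt _ (by simp [l.ne']) (n1 hC l)]
    have a2 := h2 C hC
    by_cases d : k = κ C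
    · subst d; simp [ρ, l.ne, a2]
    · by_cases d' : v (litOf (C, k)).1 = (litOf (C, k)).2 <;> simp [ρ, l.ne, d, d'] <;> decide
  · exact hs _ hx
  · exact hs _ hx

theorem bwd (h : TypeB (G φ)) : Sat3 φ := by
  classical
  obtain ⟨π, h1, h2⟩ := h
  let ρ : V → ℕ := fun x => if h : x ∈ vs φ then π ((e φ).symm ⟨x, h⟩) else 0
  have r : ∀ u, ρ (e φ u).1 = π u := fun u => by
    have : (e φ u).1 ∈ vs φ := (e φ u).2
    simp [ρ, this]
  have ne : ∀ x y, A φ x y → ρ x ≠ ρ y := fun x y h e => by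
    have : x ∈ vs φ ∧ y ∈ vs φ ∧ x ≠ y := h.elim E_mem fun h => ⟨(E_mem h).2.1, (E_mem h).1, (E_mem h).2.2.symm⟩
    simp only [ρ, this.1, this.2.1, dif_pos] at e
    exact this.2.2 (by simpa using h1 e)
  have H : ∀ x ∈ vs φ, {y | A φ x y ∧ ρ y < ρ x}.ncard % 2 = 1 ∨ {y | A φ x y ∧ ρ y < ρ x}.ncard = 0 ∨
      {y | A φ x y ∧ ρ y < ρ x}.ncard % 2 = 0 ∧ {y | A φ x y ∧ ρ x < ρ y}.ncard = 0 := fun x hx => by
    have := h2 ((e φ).symm ⟨x, hx⟩)
    rw [dm, dp, tr _ _ (fun y => ρ y < ρ x) fun u _ => by simp [r, ρ, hx],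
      tr _ _ (fun y => ρ x < ρ y) fun u _ => by simp [r, ρ, hx]] at this
    simpa [Nat.odd_iff, Nat.even_iff, or_assoc] using this
  clear_value ρ
  have t : ∀ x ∈ vs φ, ∀ a b c, [a, b, c].Nodup → (∀ y, A φ x y ↔ y ∈ [a, b, c]) →
      (ρ a < ρ x ∨ ρ x < ρ a) ∧ (ρ b < ρ x ∨ ρ x < ρ b) ∧ (ρ c < ρ x ∨ ρ x < ρ c) ∧ (ρ a < ρ x → ρ b < ρ x → ρ c < ρ x) ∧
      (ρ a < ρ x → ρ c < ρ x → ρ b < ρ x) ∧ (ρ b < ρ x → ρ c < ρ x → ρ a < ρ x) := fun x hx a b c n h => by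
    have := H x hx
    rw [cnt _ n h, cnt _ n h] at this
    have a1 := ne _ _ ((h a).2 (by simp))
    have a2 := ne _ _ ((h b).2 (by simp))
    have a3 := ne _ _ ((h c).2 (by simp))
    simp only [List.countP_cons, List.countP_nil, decide_eq_true_eq] at this
    clear * - this a1 a2 a3
    grind
  have q : ∀ C ∈ φ, ∀ k < 4, [(3, C, k), (4, C, k), (5, C, k)].countP (fun y => ρ y < ρ (2, C, k)) = 2 ∧
      [(3, C, k), (4, C, k), (5, C, k)].countP (fun y => ρ (2, C, k) < ρ y) = 1 := fun C hC k hk => by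
    have a1 := t _ (mem_vs.2 ⟨C, hC, k, hk, by simp⟩) _ _ _ (by simp) (n3 hC hk)
    have a2 := t _ (mem_vs.2 ⟨C, hC, k, hk, by simp⟩) _ _ _ (by simp) (n4 hC hk)
    have a3 := t _ (mem_vs.2 ⟨C, hC, k, hk, by simp⟩) _ _ _ (by simp) (n5 hC hk)
    simp only [List.countP_cons, List.countP_nil, decide_eq_true_eq]
    split_ifs <;> omega
  have m : ∀ C ∈ φ, ∀ k < 3, ρ (1, C, k) < ρ (2, C, k) ∧ ρ (2, C, k) < ρ (S (litOf (C, k))) ∨
      ρ (S (litOf (C, k))) < ρ (2, C, k) ∧ ρ (2, C, k) < ρ (1, C, k) := fun C hC k hk => by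
    have := H _ (mem_vs.2 ⟨C, hC, k, by omega, .inl rfl⟩)
    rw [cnt _ (by simp) (n2 hC hk), cnt _ (by simp) (n2 hC hk)] at this
    have a := q C hC k (by omega)
    have a1 := ne _ _ ((n2 hC hk (1, C, k)).2 (by simp))
    have a2 := ne _ _ ((n2 hC hk (S (litOf (C, k)))).2 (by simp))
    simp only [List.countP_cons, List.countP_nil, decide_eq_true_eq] at this a
    generalize (if ρ (3, C, k) < _ then 1 else 0) = p1, (if ρ (4, C, k) < _ then 1 else 0) = p2,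
      (if ρ (5, C, k) < _ then 1 else 0) = p3, (if _ < ρ (3, C, k) then 1 else 0) = p4,
      (if _ < ρ (4, C, k) then 1 else 0) = p5, (if _ < ρ (5, C, k) then 1 else 0) = p6 at this a
    split_ifs at this <;> omega
  refine ⟨fun x => decide (ρ (S (x, false)) < ρ (S (x, true))), fun C hC => (ok_iff _ _).2 ?_⟩
  obtain ⟨k, hk, l⟩ : ∃ k < 3, ρ (1, C, k) < ρ (2, C, 3) := by
    have := H _ (mem_vs.2 ⟨C, hC, 3, by omega, .inl rfl⟩)
    rw [cnt _ (by simp) (nc hC), cnt _ (by simp) (nc hC)] at this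
    have a := q C hC 3 (by omega)
    by_contra! c
    simp only [List.countP_cons, List.countP_nil, decide_eq_true_eq, (c 0 (by omega)).not_gt,
      (c 1 (by omega)).not_gt, (c 2 (by omega)).not_gt, if_false] at this a
    omega
  refine ⟨k, hk, ?_⟩
  have hz : S (litOf (C, k)) ∈ vs φ := mem_vs.2 ⟨C, hC, k, by omega, by simp [hk]⟩
  have a1 := t _ (mem_vs.2 ⟨C, hC, k, by omega, by simp [hk]⟩) _ _ _ (by simp [hk.ne']) (n1 hC hk)
  have a2 := m C hC k hk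
  have a3 : ρ (1, C, k) < ρ (S (litOf (C, k))) := by omega
  have a4 := (ns hz _).2 (.inl rfl)
  have a5 : ρ (S ((litOf (C, k)).1, !(litOf (C, k)).2)) < ρ (S (litOf (C, k))) := by
    by_contra c
    obtain ⟨j, hj⟩ := sc hz (fun y => ρ y < ρ (S (litOf (C, k)))) fun D hD i hi e => by
      have := m D hD i hi
      rw [e] at this
      omega
    have b1 := (Set.ncard_pos (fin _ fun y => ρ y < ρ (S (litOf (C, k))))).2
      ⟨_, (ns hz _).2 (.inr ⟨C, hC, k, hk, rfl, .inl rfl⟩), a3⟩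
    have b2 := (Set.ncard_pos (fin _ fun y => ρ (S (litOf (C, k))) < ρ y)).2
      ⟨_, a4, lt_of_le_of_ne (not_lt.1 c) (ne _ _ a4)⟩
    have := H _ hz
    rw [if_neg c] at hj
    omega
  generalize litOf (C, k) = z at a5
  obtain ⟨x, _ | _⟩ := z
  · exact decide_eq_false a5.asymm
  · exact decide_eq_true a5

theorem result : NPComplete TypeA ∧ NPComplete TypeB := by
  have ab : ∀ a, TypeA a → TypeB a := fun a ⟨π, h1, h2⟩ => ⟨π, h1, fun v => .inl (h2 v)⟩
  have pt : PT G := by unfold G vs es litOf; fun_prop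
  exact ⟨⟨np (fun x _ => Odd x ∨ x = 0) (by fun_prop), NPHard.of_sat3 G pt fun φ _ => ⟨fwd, fun h => bwd (ab _ h)⟩⟩,
    np (fun x y => (Odd x ∨ x = 0) ∨ Even x ∧ y = 0) (by fun_prop),
    NPHard.of_sat3 G pt fun φ _ => ⟨fun h => ab _ (fwd h), bwd⟩⟩

end Pool.Agent.Results.MP_e5cbc1_lc.NPC
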